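import Pool.Agent.NNr.R11_1_1_4.D0
import Pool.Agent.NNr.R11_1_1_4.D1
import Pool.Agent.NNe.Slots

set_option linter.all false
set_option maxRecDepth 1000000
namespace Pool.Agent.NNr.R11_1_1_4

open Pool.Agent.NNe

def st1_22_0 : starCk (nat_lit 48) (nat_lit 5) (nat_lit 2) (nat_lit 2) (nat_lit 64) (nat_lit 148) (nat_lit 4096) C1_22 = true := by decide +kernel
def sc1_22 : stCov (nat_lit 3) (nat_lit 148) (Rl.cons (nat_lit 148) (nat_lit 64) Rl.nil) C1_22 = true := by decide +kernel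
def wf1_23 : wfC (nat_lit 48) (nat_lit 5) C1_23 = true := by decide +kernel
def rf1_23 : rfCk (nat_lit 61) (nat_lit 2) (nat_lit 48) (nat_lit 5) (nat_lit 9) (nat_lit 0) (nat_lit 23) TL1 CL0 CL1 = true := by decide +kernel
def st1_23_0 : starCk (nat_lit 48) (nat_lit 5) (nat_lit 2) (nat_lit 2) (nat_lit 26) (nat_lit 74) (nat_lit 16) C1_23 = true := by decide +kernel
def sc1_23 : stCov (nat_lit 1) (nat_lit 74) (Rl.cons (nat_lit 74) (nat_lit 26) Rl.nil) C1_23 = true := by decide +kernel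
def wf1_24 : wfC (nat_lit 48) (nat_lit 5) C1_24 = true := by decide +kernel
def rf1_24 : rfCk (nat_lit 61) (nat_lit 2) (nat_lit 48) (nat_lit 5) (nat_lit 9) (nat_lit 0) (nat_lit 24) TL1 CL0 CL1 = true := by decide +kernel
def st1_24_0 : starCk (nat_lit 48) (nat_lit 5) (nat_lit 2) (nat_lit 2) (nat_lit 32) (nat_lit 53) (nat_lit 4096) C1_24 = true := by decide +kernel
def sc1_24 : stCov (nat_lit 3) (nat_lit 53) (Rl.cons (nat_lit 53) (nat_lit 32) Rl.nil) C1_24 = true := by decide +kernel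
def ti1_0 : tileCk (nat_lit 48) (nat_lit 5) (nat_lit 1) (nat_lit 2) (nat_lit 388) (nat_lit 11) (nat_lit 25) ZL1_0 CL1 = true := by decide +kernel
def zl1_0 : zlOK (nat_lit 388) ZL1_0 = true := by decide +kernel
def tc1_0 : tiCov (nat_lit 1) (nat_lit 0) ZZ1 C1_0 = true := by decide +kernel
def tc1_1 : tiCov (nat_lit 1) (nat_lit 1) ZZ1 C1_1 = true := by decide +kernel
def tc1_2 : tiCov (nat_lit 1) (nat_lit 2) ZZ1 C1_2 = true := by decide +kernel
def tc1_3 : tiCov (nat_lit 1) (nat_lit 3) ZZ1 C1_3 = true := by decide +kernel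
def tc1_4 : tiCov (nat_lit 1) (nat_lit 4) ZZ1 C1_4 = true := by decide +kernel
def tc1_5 : tiCov (nat_lit 1) (nat_lit 5) ZZ1 C1_5 = true := by decide +kernel
def tc1_6 : tiCov (nat_lit 1) (nat_lit 6) ZZ1 C1_6 = true := by decide +kernel
def tc1_7 : tiCov (nat_lit 1) (nat_lit 7) ZZ1 C1_7 = true := by decide +kernel
def tc1_8 : tiCov (nat_lit 1) (nat_lit 8) ZZ1 C1_8 = true := by decide +kernel
def tc1_9 : tiCov (nat_lit 1) (nat_lit 9) ZZ1 C1_9 = true := by decide +kernel
def tc1_10 : tiCov (nat_lit 1) (nat_lit 10) ZZ1 C1_10 = true := by decide +kernel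
def tc1_11 : tiCov (nat_lit 1) (nat_lit 11) ZZ1 C1_11 = true := by decide +kernel
def tc1_12 : tiCov (nat_lit 1) (nat_lit 12) ZZ1 C1_12 = true := by decide +kernel
def tc1_13 : tiCov (nat_lit 1) (nat_lit 13) ZZ1 C1_13 = true := by decide +kernel
def tc1_14 : tiCov (nat_lit 1) (nat_lit 14) ZZ1 C1_14 = true := by decide +kernel
def tc1_15 : tiCov (nat_lit 1) (nat_lit 15) ZZ1 C1_15 = true := by decide +kernel
def tc1_16 : tiCov (nat_lit 1) (nat_lit 16) ZZ1 C1_16 = true := by decide +kernel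
def tc1_17 : tiCov (nat_lit 1) (nat_lit 17) ZZ1 C1_17 = true := by decide +kernel
def tc1_18 : tiCov (nat_lit 1) (nat_lit 18) ZZ1 C1_18 = true := by decide +kernel
def tc1_19 : tiCov (nat_lit 1) (nat_lit 19) ZZ1 C1_19 = true := by decide +kernel
def tc1_20 : tiCov (nat_lit 1) (nat_lit 20) ZZ1 C1_20 = true := by decide +kernel
def tc1_21 : tiCov (nat_lit 1) (nat_lit 21) ZZ1 C1_21 = true := by decide +kernel
def tc1_22 : tiCov (nat_lit 1) (nat_lit 22) ZZ1 C1_22 = true := by decide +kernel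
def tc1_23 : tiCov (nat_lit 1) (nat_lit 23) ZZ1 C1_23 = true := by decide +kernel
def tc1_24 : tiCov (nat_lit 1) (nat_lit 24) ZZ1 C1_24 = true := by decide +kernel
def de1_0 : deadCk (nat_lit 48) (nat_lit 5) C1_0 = true := by decide +kernel
def de1_1 : deadCk (nat_lit 48) (nat_lit 5) C1_1 = true := by decide +kernel
def de1_2 : deadCk (nat_lit 48) (nat_lit 5) C1_2 = true := by decide +kernel
def de1_3 : deadCk (nat_lit 48) (nat_lit 5) C1_3 = true := by decide +kernel
def de1_4 : deadCk (nat_lit 48) (nat_lit 5) C1_4 = true := by decide +kernel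
def de1_5 : deadCk (nat_lit 48) (nat_lit 5) C1_5 = true := by decide +kernel
def de1_6 : deadCk (nat_lit 48) (nat_lit 5) C1_6 = true := by decide +kernel
def de1_7 : deadCk (nat_lit 48) (nat_lit 5) C1_7 = true := by decide +kernel
def de1_8 : deadCk (nat_lit 48) (nat_lit 5) C1_8 = true := by decide +kernel
def de1_9 : deadCk (nat_lit 48) (nat_lit 5) C1_9 = true := by decide +kernel
def de1_10 : deadCk (nat_lit 48) (nat_lit 5) C1_10 = true := by decide +kernel
def de1_11 : deadCk (nat_lit 48) (nat_lit 5) C1_11 = true := by decide +kernel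
def de1_12 : deadCk (nat_lit 48) (nat_lit 5) C1_12 = true := by decide +kernel
def de1_13 : deadCk (nat_lit 48) (nat_lit 5) C1_13 = true := by decide +kernel
def de1_14 : deadCk (nat_lit 48) (nat_lit 5) C1_14 = true := by decide +kernel
def de1_15 : deadCk (nat_lit 48) (nat_lit 5) C1_15 = true := by decide +kernel
def de1_16 : deadCk (nat_lit 48) (nat_lit 5) C1_16 = true := by decide +kernel
def de1_17 : deadCk (nat_lit 48) (nat_lit 5) C1_17 = true := by decide +kernel
def de1_18 : deadCk (nat_lit 48) (nat_lit 5) C1_18 = true := by decide +kernel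
def de1_19 : deadCk (nat_lit 48) (nat_lit 5) C1_19 = true := by decide +kernel
def de1_20 : deadCk (nat_lit 48) (nat_lit 5) C1_20 = true := by decide +kernel
def de1_21 : deadCk (nat_lit 48) (nat_lit 5) C1_21 = true := by decide +kernel
def de1_22 : deadCk (nat_lit 48) (nat_lit 5) C1_22 = true := by decide +kernel
def de1_23 : deadCk (nat_lit 48) (nat_lit 5) C1_23 = true := by decide +kernel
def de1_24 : deadCk (nat_lit 48) (nat_lit 5) C1_24 = true := by decide +kernel
def sc0_0 : stCov (nat_lit 2) (nat_lit 0) (Rl.cons (nat_lit 0) (nat_lit 64) Rl.nil) C0_0 = true := by decide +kernel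
def sc0_1 : stCov (nat_lit 1) (nat_lit 0) (Rl.cons (nat_lit 0) (nat_lit 113) Rl.nil) C0_1 = true := by decide +kernel
def sc0_2 : stCov (nat_lit 1) (nat_lit 0) (Rl.cons (nat_lit 0) (nat_lit 24) Rl.nil) C0_2 = true := by decide +kernel
def sc0_3 : stCov (nat_lit 0) (nat_lit 0) (Rl.cons (nat_lit 0) (nat_lit 211) Rl.nil) C0_3 = true := by decide +kernel
def sc0_4 : stCov (nat_lit 0) (nat_lit 0) (Rl.cons (nat_lit 0) (nat_lit 56) Rl.nil) C0_4 = true := by decide +kernel
def sc0_5 : stCov (nat_lit 0) (nat_lit 0) (Rl.cons (nat_lit 0) (nat_lit 232) Rl.nil) C0_5 = true := by decide +kernel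
def sc0_6 : stCov (nat_lit 0) (nat_lit 0) (Rl.cons (nat_lit 0) (nat_lit 64) Rl.nil) C0_6 = true := by decide +kernel
def sc0_7 : stCov (nat_lit 0) (nat_lit 0) (Rl.cons (nat_lit 0) (nat_lit 211) Rl.nil) C0_7 = true := by decide +kernel
def sc0_8 : stCov (nat_lit 0) (nat_lit 0) (Rl.cons (nat_lit 0) (nat_lit 64) Rl.nil) C0_8 = true := by decide +kernel
def sc0_9 : stCov (nat_lit 0) (nat_lit 0) (Rl.cons (nat_lit 0) (nat_lit 113) Rl.nil) C0_9 = true := by decide +kernel
def sc0_10 : stCov (nat_lit 0) (nat_lit 0) (Rl.cons (nat_lit 0) (nat_lit 64) Rl.nil) C0_10 = true := by decide +kernel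
def sc0_11 : stCov (nat_lit 0) (nat_lit 0) (Rl.cons (nat_lit 0) (nat_lit 64) Rl.nil) C0_11 = true := by decide +kernel
def sc0_12 : stCov (nat_lit 0) (nat_lit 0) (Rl.cons (nat_lit 0) (nat_lit 64) Rl.nil) C0_12 = true := by decide +kernel
def sc0_13 : stCov (nat_lit 0) (nat_lit 0) (Rl.cons (nat_lit 0) (nat_lit 56) Rl.nil) C0_13 = true := by decide +kernel
def sc0_14 : stCov (nat_lit 0) (nat_lit 0) (Rl.cons (nat_lit 0) (nat_lit 24) Rl.nil) C0_14 = true := by decide +kernel
def sc0_15 : stCov (nat_lit 1) (nat_lit 0) (Rl.cons (nat_lit 0) (nat_lit 642) Rl.nil) C0_15 = true := by decide +kernel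
def sc0_16 : stCov (nat_lit 1) (nat_lit 0) (Rl.cons (nat_lit 0) (nat_lit 203) Rl.nil) C0_16 = true := by decide +kernel
def sc0_17 : stCov (nat_lit 0) (nat_lit 0) (Rl.cons (nat_lit 0) (nat_lit 972) Rl.nil) C0_17 = true := by decide +kernel
def sc0_18 : stCov (nat_lit 0) (nat_lit 0) (Rl.cons (nat_lit 0) (nat_lit 427) Rl.nil) C0_18 = true := by decide +kernel
def sc0_19 : stCov (nat_lit 0) (nat_lit 0) (Rl.cons (nat_lit 0) (nat_lit 642) Rl.nil) C0_19 = true := by decide +kernel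
def sc0_20 : stCov (nat_lit 0) (nat_lit 0) (Rl.cons (nat_lit 0) (nat_lit 448) Rl.nil) C0_20 = true := by decide +kernel
def sc0_21 : stCov (nat_lit 0) (nat_lit 0) (Rl.cons (nat_lit 0) (nat_lit 448) Rl.nil) C0_21 = true := by decide +kernel
def sc0_22 : stCov (nat_lit 0) (nat_lit 0) (Rl.cons (nat_lit 0) (nat_lit 448) Rl.nil) C0_22 = true := by decide +kernel
def sc0_23 : stCov (nat_lit 0) (nat_lit 0) (Rl.cons (nat_lit 0) (nat_lit 427) Rl.nil) C0_23 = true := by decide +kernel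
def sc0_24 : stCov (nat_lit 0) (nat_lit 0) (Rl.cons (nat_lit 0) (nat_lit 203) Rl.nil) C0_24 = true := by decide +kernel

end Pool.Agent.NNr.R11_1_1_4
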